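import Pool.Agent.Helper74.RF.MainB

set_option autoImplicit false

/-!
# MP_bc06f7_co: unbounded differences or superlinear growth, for every number of colours

`ramseyF2 r d` is the least `n` such that every `r`-colouring of the non-zero vectors of `F_2^n`
has a 2-dimensional subspace monochromatic in one of the first `r - 1` colours or a
`d`-dimensional subspace monochromatic in the last colour.

For every `r ≥ 3`, either the difference `R^(r)(2;d) - R^(r-1)(2;d)` is unbounded as `d → ∞`, or
`R^(r-1)(2;d)` is at least a constant times `d^(4/3) / (log d)^(1/3)` for all large `d`.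
-/

open Filter

namespace Pool.Agent.Results.MP_bc06f7_co.EveryNumber

open Pool.Agent.Helper22.SR

theorem result (r : ℕ) (hr : 3 ≤ r) :
    (∀ K : ℕ, ∃ᶠ d : ℕ in atTop, ramseyF2 (r - 1) d + K ≤ ramseyF2 r d) ∨
    ∃ c : ℝ, 0 < c ∧ ∀ᶠ d : ℕ in atTop,
      c * (d : ℝ) ^ 4 ≤ (ramseyF2 (r - 1) d : ℝ) ^ 3 * Real.log d :=
  Pool.Agent.RF.main_B r hr

end Pool.Agent.Results.MP_bc06f7_co.EveryNumber
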