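import Pool.Agent.Helper22.SR.Upper

set_option autoImplicit false

/-!
# MP_bc06f7_co: differences of multicolour Ramsey numbers for subspaces

`ramseyF2 r d` is the least `n` such that every `r`-colouring of the non-zero vectors of `F_2^n`
has a 2-dimensional subspace monochromatic in one of the first `r - 1` colours or a
`d`-dimensional subspace monochromatic in the last colour.

For infinitely many `r`, and for some `r ≤ 27`, there is `c > 0` such that for infinitely many `d`
the difference of consecutive numbers is at least `c` times the smaller of the two.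
-/

open Filter

namespace Pool.Agent.Results.MP_bc06f7_co.JumpsManyColours

open Pool.Agent.Helper22.SR

/-- the `r` for which the difference `R^(r)(2;d) - R^(r-1)(2;d)` is, for infinitely many `d`, at
least a constant proportion of `R^(r-1)(2;d)` and of `d` -/
def jumps : Set ℕ :=
  {r | 3 ≤ r ∧ ∃ c : ℝ, 0 < c ∧ ∃ᶠ d : ℕ in atTop,
    c * ramseyF2 (r - 1) d ≤ (ramseyF2 r d : ℝ) - ramseyF2 (r - 1) d ∧
    c * d ≤ (ramseyF2 r d : ℝ) - ramseyF2 (r - 1) d}

theorem mem_jumps {r : ℕ} (hr : 3 ≤ r) {c : ℝ} (hc : 0 < c)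
    (h : ∃ᶠ d : ℕ in atTop, c * ramseyF2 (r - 1) d ≤ (ramseyF2 r d : ℝ) - ramseyF2 (r - 1) d) :
    r ∈ jumps := by
  refine ⟨hr, c, hc, ?_⟩
  refine (h.and_eventually (eventually_ramsey_lower 1 (by norm_num))).mono ?_
  rintro d ⟨h1, h2⟩
  refine ⟨h1, ?_⟩
  have h3 := h2 (r - 2) (by omega)
  have h4 : r - 2 + 1 = r - 1 := by omega
  rw [h4, one_mul] at h3
  exact (mul_le_mul_of_nonneg_left h3 hc.le).trans h1

theorem result : jumps.Infinite ∧ ∃ r ∈ jumps, r ≤ 27 := by
  constructor
  · apply Set.infinite_of_forall_exists_gt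
    intro r0
    obtain ⟨r, hr0, hr3, c, hc, h⟩ := exists_unbounded (r0 + 1)
    exact ⟨r, mem_jumps hr3 hc h, by omega⟩
  · obtain ⟨r, hr3, hr27, c, hc, h⟩ := exists_unbounded_27
    exact ⟨r, mem_jumps hr3 hc h, hr27⟩

end Pool.Agent.Results.MP_bc06f7_co.JumpsManyColours
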