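import Pool.Agent.Helper74.RF.MainA

set_option autoImplicit false

/-!
# MP_bc06f7_co: the difference `R(2,2,d) - R(2,d)`

`ramseyF2 r d` is the least `n` such that every `r`-colouring of the non-zero vectors of `F_2^n`
has a 2-dimensional subspace monochromatic in one of the first `r - 1` colours or a
`d`-dimensional subspace monochromatic in the last colour; so `ramseyF2 2 d = R(2, d)` and
`ramseyF2 3 d = R(2, 2, d)`.

Either `R(2, d)` is superlinear, or `R(2, 2, d) ≥ R(2, d) + c d` for all large `d`.
-/

open Filter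

namespace Pool.Agent.Results.MP_bc06f7_co.ThreeColours

open Pool.Agent.Helper22.SR

theorem result : Tendsto (fun d : ℕ => (ramseyF2 2 d : ℝ) / d) atTop atTop ∨
    ∃ c : ℝ, 0 < c ∧ ∀ᶠ d : ℕ in atTop, (ramseyF2 2 d : ℝ) + c * d ≤ ramseyF2 3 d :=
  Pool.Agent.RF.main_A

end Pool.Agent.Results.MP_bc06f7_co.ThreeColours
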