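import Pool.Agent.Helper22.SR.Uniform

set_option autoImplicit false

/-!
# MP_bc06f7_co: lower bounds for multicolour Ramsey numbers for subspaces, uniform in the number
of colours

`ramseyF2 r d` is the least `n` such that every `r`-colouring of the non-zero vectors of `F_2^n`
has a 2-dimensional subspace monochromatic in one of the first `r - 1` colours or a
`d`-dimensional subspace monochromatic in the last colour.
-/

open Filter

namespace Pool.Agent.Results.MP_bc06f7_co.UniformLowerBound

open Pool.Agent.Helper22.SR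

theorem result (ε : ℝ) (h0 : 0 < ε) (h1 : ε ≤ 1 / 4) :
    ∃ d0 : ℕ, ∀ d ≥ d0,
      (∀ r : ℕ, 2 ≤ r →
        max (2 - ε) (1 + ((r : ℝ) - 1) * (1 / 4 - ε)) * d ≤ ramseyF2 r d) ∧
      ∃ᶠ r : ℕ in atTop, (1 / 4 - ε) * d ≤ (ramseyF2 (r + 1) d : ℝ) - ramseyF2 r d := by
  obtain ⟨d1, hd1⟩ := uniform_lower (1 / 4 - ε) (by linarith) (by linarith)
  obtain ⟨d2, hd2⟩ := Filter.eventually_atTop.mp (eventually_ramsey_lower (2 - ε) (by linarith))
  obtain ⟨d3, hd3⟩ := frequently_difference (1 / 4 - ε) (by linarith) (by linarith)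
  refine ⟨max d1 (max d2 d3), fun d hd => ⟨fun r hr => ?_, ?_⟩⟩
  · obtain ⟨s, rfl⟩ : ∃ s, r = s + 1 := ⟨r - 1, by omega⟩
    have hs : 1 ≤ s := by omega
    have h2 := hd1 d (le_trans (le_max_left _ _) hd) s hs
    have h3 := hd2 d (le_trans (le_trans (le_max_left _ _) (le_max_right _ _)) hd) s hs
    rw [max_mul_of_nonneg _ _ (by positivity)]
    apply max_le h3
    refine le_trans (le_of_eq ?_) h2
    push_cast
    ring
  · exact hd3 d (le_trans (le_trans (le_max_right _ _) (le_max_right _ _)) hd)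

end Pool.Agent.Results.MP_bc06f7_co.UniformLowerBound
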